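import Pool.Agent.Run7.h745.AH.Iface

/-!
# MP_501a10_an (project of helper745): piece ELLA

Assembly of the Elliott invariant.
-/

set_option autoImplicit false
set_option linter.unusedSectionVars false

noncomputable section

namespace Run7.h882.AH

open Filter Topology Matrix Pool.Agent.TH249 Pool.Agent.H188R3 Run7.h745 Run7.h745.AH

section pad
variable {A : Type} [CStarAlgebra A]

/-! The lemmas of this section are copied from `Run7/h745/K1.lean`. -/

lemma pad_apply {n : ℕ} (N : ℕ) (M : Matrix (Fin n) (Fin n) A) (i j : Fin N) :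
    pad N M i j = if h : (i : ℕ) < n ∧ (j : ℕ) < n then M ⟨i, h.1⟩ ⟨j, h.2⟩ else
      if i = j then 1 else 0 := rfl

/-- the splitting of the indices -/
def eP {n N : ℕ} (h : n ≤ N) : Fin N ≃ Fin n ⊕ Fin (N - n) :=
  (finSumFinEquiv.trans (finCongr (Nat.add_sub_cancel' h))).symm

lemma pad_eq {n N : ℕ} (h : n ≤ N) (M : Matrix (Fin n) (Fin n) A) :
    pad N M = (fromBlocks M 0 0 1).submatrix (eP h) (eP h) := by
  have key : ∀ a b, pad N M ((eP h).symm a) ((eP h).symm b) = fromBlocks M 0 0 1 a b := by
    intro a b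
    rw [pad_apply]
    rcases a with a | a <;> rcases b with b | b
    · rw [dif_pos]
      · rfl
      · constructor <;> simp [eP]
    · rw [dif_neg, if_neg]
      · simp
      · intro hab
        have := congrArg Fin.val hab
        simp only [eP, Equiv.symm_symm, Equiv.trans_apply, finSumFinEquiv_apply_left,
          finSumFinEquiv_apply_right, finCongr_apply, Fin.val_cast, Fin.val_castAdd,
          Fin.val_natAdd] at this
        omega
      · intro hab
        have := hab.2
        simp [eP] at this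
    · rw [dif_neg, if_neg]
      · simp
      · intro hab
        have := congrArg Fin.val hab
        simp only [eP, Equiv.symm_symm, Equiv.trans_apply, finSumFinEquiv_apply_left,
          finSumFinEquiv_apply_right, finCongr_apply, Fin.val_cast, Fin.val_castAdd,
          Fin.val_natAdd] at this
        omega
      · intro hab
        have := hab.1
        simp [eP] at this
    · rw [dif_neg]
      · by_cases hab : a = b
        · subst hab; simp
        · rw [if_neg, fromBlocks_apply₂₂, Matrix.one_apply_ne hab]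
          intro h1
          exact hab (Sum.inr_injective ((eP h).symm.injective h1))
      · intro hab
        have := hab.1
        simp [eP] at this
  ext i j
  rw [submatrix_apply, ← key, Equiv.symm_apply_apply, Equiv.symm_apply_apply]

lemma pad_mul {n N : ℕ} (h : n ≤ N) (M M' : Matrix (Fin n) (Fin n) A) :
    pad N (M * M') = pad N M * pad N M' := by
  rw [pad_eq h, pad_eq h, pad_eq h, submatrix_mul_equiv, fromBlocks_multiply]
  simp

lemma pad_star {n N : ℕ} (h : n ≤ N) (M : Matrix (Fin n) (Fin n) A) :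
    pad N (star M) = star (pad N M) := by
  rw [pad_eq h, pad_eq h, star_eq_conjTranspose, star_eq_conjTranspose, conjTranspose_submatrix,
    fromBlocks_conjTranspose]
  simp

lemma pad_one {n N : ℕ} (h : n ≤ N) : pad N (1 : Matrix (Fin n) (Fin n) A) = 1 := by
  rw [pad_eq h, fromBlocks_one, submatrix_one_equiv]

lemma pad_mem {n N : ℕ} (h : n ≤ N) {M : Matrix (Fin n) (Fin n) A}
    (hM : M ∈ unitary (Matrix (Fin n) (Fin n) A)) :
    pad N M ∈ unitary (Matrix (Fin N) (Fin N) A) := by
  rw [Unitary.mem_iff, ← pad_star h, ← pad_mul h, ← pad_mul h, (Unitary.mem_iff.mp hM).1,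
    (Unitary.mem_iff.mp hM).2, pad_one h]
  exact ⟨rfl, rfl⟩

end pad

/-- if all unitary matrices are connected to `1` then `K_1` is trivial -/
lemma isK1_unit {L : Type} [CStarAlgebra L]
    (h : ∀ (m : ℕ) (U : Matrix (Fin m) (Fin m) L), U ∈ unitary (Matrix (Fin m) (Fin m) L) →
      JoinedIn (unitary (Matrix (Fin m) (Fin m) L) : Set (Matrix (Fin m) (Fin m) L)) U 1) :
    IsK1 L (G := Multiplicative Unit) (fun _ => 1) where
  surjective := by
    intro g
    exact ⟨⟨0, 1, one_mem _⟩, rfl⟩
  eq_iff := by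
    intro U V
    refine ⟨fun _ => ⟨max U.n V.n, le_max_left _ _, le_max_right _ _, ?_⟩, fun _ => rfl⟩
    exact (h _ _ (pad_mem (le_max_left _ _) U.mem)).trans
      (h _ _ (pad_mem (le_max_right _ _) V.mem)).symm
  mul := by
    intro n U V hU hV
    rfl

/-- a trace on the image of a projection -/
lemma mat_map {s : ℕ → Bool} {n : ℕ} {L : Type} [CStarAlgebra L] (j : A s n →⋆ₐ[ℂ] L)
    (τ : TracialState L) (Q : Prj (A s n)) :
    τ.mat (Q.map j).mat = τ.val (j (Matrix.trace Q.mat)) := by
  show ∑ i, τ.val (j (Q.mat i i)) = _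
  rw [Matrix.trace, map_sum, map_sum]
  rfl

/-- **PIECE ELLA** -/
theorem t_ELLA : S_ELLA := by
  intro hTR hKZ hRK hTRF hKO s s' L _ j L' _ j' hj hj'
  obtain ⟨Φ, hΦ, hval⟩ := hTR s s' L j L' j' hj hj'
  obtain ⟨φ₀, hpos, hunit, hcls⟩ := hKZ hRK hTRF s s' L j L' j' hj hj'
  refine ⟨φ₀, Φ, hpos, hunit, hΦ, ?_, Multiplicative Unit, inferInstance, fun _ => 1,
    Multiplicative Unit, inferInstance, fun _ => 1, isK1_unit (hKO s L j hj),
    isK1_unit (hKO s' L' j' hj'), ⟨MulEquiv.refl _⟩⟩
  intro τ x
  have key : τ.onK0.comp (φ₀ : K0 L →+ K0 L') = (Φ τ).onK0 := by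
    apply K0.hom_ext
    intro P
    obtain ⟨n, Q, Q', h1, h2, h3⟩ := hcls P
    show τ.onK0 (φ₀ (K0.cls P)) = (Φ τ).onK0 (K0.cls P)
    rw [h2, h1, TracialState.onK0_cls, TracialState.onK0_cls, mat_map, mat_map,
      hval τ n (Matrix.trace Q.mat) (Matrix.trace Q'.mat) h3]
  exact DFunLike.congr_fun key x

end Run7.h882.AH
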