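import Pool.Agent.Run7.h745.AH.Iface

/-!
# MP_501a10_an (project of helper745): piece ISO

The invariants `Dt` are invariant under isomorphism.
-/

set_option autoImplicit false

noncomputable section

namespace Run7.h882.AH

open Filter Topology Matrix Pool.Agent.TH249 Run7.h745 Run7.h745.AH

section maps
variable {A B I J K : Type} [CStarAlgebra A] [CStarAlgebra B] (f : A →⋆ₐ[ℂ] B)

lemma map_conjT (M : Matrix I J A) : (Mᴴ).map f = (M.map f)ᴴ := by
  ext i j
  simp [conjTranspose_apply, map_star]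

lemma map_mulM [Fintype J] (M : Matrix I J A) (N : Matrix J K A) :
    (M * N).map f = M.map f * N.map f := by
  ext i j
  simp [mul_apply, map_sum]

lemma map_oneM [DecidableEq I] : (1 : Matrix I I A).map f = 1 := by
  ext i j
  by_cases h : i = j
  · subst h; simp
  · simp [Matrix.one_apply_ne h]

lemma map_subM (M N : Matrix I J A) : (M - N).map f = M.map f - N.map f := by
  ext i j
  simp

end maps

/-- pulling back a tracial state -/
def comap {A B : Type} [CStarAlgebra A] [CStarAlgebra B] (f : A →⋆ₐ[ℂ] B) (τ : TracialState B) :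
    TracialState A where
  val := τ.val.comp (f.toAlgHom.toLinearMap)
  map_one := by
    show τ.val (f 1) = 1
    rw [map_one, τ.map_one]
  nonneg x := by
    show 0 ≤ (τ.val (f (star x * x))).re ∧ (τ.val (f (star x * x))).im = 0
    rw [map_mul f, map_star]
    exact τ.nonneg (f x)
  comm x y := by
    show τ.val (f (x * y)) = τ.val (f (y * x))
    rw [map_mul f, map_mul f]
    exact τ.comm _ _

lemma comap_mat {A B I : Type} [Fintype I] [CStarAlgebra A] [CStarAlgebra B] (f : A →⋆ₐ[ℂ] B)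
    (τ : TracialState B) (M : Matrix I I A) : (comap f τ).mat M = τ.mat (M.map f) := rfl

lemma prT_comap {A B : Type} [CStarAlgebra A] [CStarAlgebra B] (e : A ≃⋆ₐ[ℂ] B)
    (τ₀ : TracialState B) (r : ℝ) (h : PrT B τ₀ r) :
    PrT A (comap (e : A →⋆ₐ[ℂ] B) τ₀) r := by
  intro k c ⟨y, hy⟩ ⟨z, hz⟩ hc ε hε
  obtain ⟨l, E, v, hE, hτ, hv⟩ := h k (c.map (e : A →⋆ₐ[ℂ] B))
    ⟨y.map (e : A →⋆ₐ[ℂ] B), by rw [hy, map_mulM, map_conjT]⟩
    ⟨z.map (e : A →⋆ₐ[ℂ] B), by rw [← map_conjT, ← map_mulM, ← hz, map_subM, map_oneM]⟩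
    (fun τ => hc (comap (e : A →⋆ₐ[ℂ] B) τ)) ε hε
  have hes : ∀ {I J : Type} (M : Matrix I J B),
      (M.map (e.symm : B →⋆ₐ[ℂ] A)).map (e : A →⋆ₐ[ℂ] B) = M := by
    intro I J M
    ext i j
    show e (e.symm (M i j)) = M i j
    exact e.apply_symm_apply _
  have hes' : ∀ {I J : Type} (M : Matrix I J A),
      (M.map (e : A →⋆ₐ[ℂ] B)).map (e.symm : B →⋆ₐ[ℂ] A) = M := by
    intro I J M
    ext i j
    show e.symm (e (M i j)) = M i j
    exact e.symm_apply_apply _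
  refine ⟨l, E.map (e.symm : B →⋆ₐ[ℂ] A), v.map (e.symm : B →⋆ₐ[ℂ] A), hE.map _, ?_, ?_⟩
  · rw [comap_mat, hes]
    exact hτ
  · have h1 : fromBlocks c 0 0 (E.map (e.symm : B →⋆ₐ[ℂ] A)) =
        (fromBlocks (c.map (e : A →⋆ₐ[ℂ] B)) 0 0 E).map (e.symm : B →⋆ₐ[ℂ] A) := by
      rw [fromBlocks_map, hes']
      congr 1
      · ext i j; simp
      · ext i j; simp
    rw [h1, ← map_conjT, ← map_mulM, ← map_mulM, hv, map_oneM]

/-- **PIECE ISO** -/
theorem t_ISO : S_ISO := by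
  rintro A B _ _ ⟨e⟩ t hA τ₀ hτ
  have h1 := hA (comap (e : A →⋆ₐ[ℂ] B) τ₀) (prT_comap e τ₀ _ hτ)
  have h2 := prT_comap e.symm (comap (e : A →⋆ₐ[ℂ] B) τ₀) _ h1
  have h3 : comap (e.symm : B →⋆ₐ[ℂ] A) (comap (e : A →⋆ₐ[ℂ] B) τ₀) = τ₀ := by
    have h4 : (comap (e.symm : B →⋆ₐ[ℂ] A) (comap (e : A →⋆ₐ[ℂ] B) τ₀)).val = τ₀.val := by
      ext x
      show τ₀.val (e (e.symm x)) = τ₀.val x
      rw [e.apply_symm_apply]
    cases τ₀
    simp only [comap] at h4 ⊢
    congr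
  rwa [h3] at h2

end Run7.h882.AH
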